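import Mathlib

/-! Coverable spacings of the square lattice: lattice points in a disk, and a weight function for
disk packings (MP_bcdb6f_co). -/

open Finset

namespace Pool.Agent.X137.Cov

/-- a set of integer points of squared diameter at most `16` has at most `14` points -/
theorem card_le_14 (T : Finset (ℤ × ℤ))
    (h : ∀ p ∈ T, ∀ q ∈ T, (p.1 - q.1) ^ 2 + (p.2 - q.2) ^ 2 ≤ 16) : T.card ≤ 14 := by
  classical
  rcases T.eq_empty_or_nonempty with rfl | hT
  · simp
  obtain ⟨p0, hp0, hp0m⟩ := T.exists_min_image (fun p => p.1) hT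
  obtain ⟨p1, hp1, hp1m⟩ := T.exists_max_image (fun p => p.1) hT
  obtain ⟨q0, hq0, hq0m⟩ := T.exists_min_image (fun p => p.2) hT
  obtain ⟨q1, hq1, hq1m⟩ := T.exists_max_image (fun p => p.2) hT
  have hx4 : p1.1 - p0.1 ≤ 4 := by
    have := h p1 hp1 p0 hp0
    nlinarith [sq_nonneg (p1.2 - p0.2)]
  have hy4 : q1.2 - q0.2 ≤ 4 := by
    have := h q1 hq1 q0 hq0
    nlinarith [sq_nonneg (q1.1 - q0.1)]
  -- if the width is 4, the extreme columns have one point each
  have colx : p1.1 - p0.1 = 4 → ∀ p ∈ T, p = p0 ∨ p = p1 ∨ (p0.1 + 1 ≤ p.1 ∧ p.1 ≤ p0.1 + 3) := by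
    intro h4 p hp
    have e01 : p0.2 = p1.2 := by
      have := h p1 hp1 p0 hp0
      have h0 : (p1.2 - p0.2) ^ 2 ≤ 0 := by nlinarith
      have := sq_eq_zero_iff.1 (le_antisymm h0 (sq_nonneg _))
      omega
    have hm := hp0m p hp
    have hM := hp1m p hp
    by_cases c0 : p.1 = p0.1
    · left
      have := h p1 hp1 p hp
      have h0 : (p1.2 - p.2) ^ 2 ≤ 0 := by
        have : p1.1 - p.1 = 4 := by omega
        nlinarith
      have := sq_eq_zero_iff.1 (le_antisymm h0 (sq_nonneg _))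
      exact Prod.ext c0 (by omega)
    by_cases c1 : p.1 = p1.1
    · right; left
      have := h p hp p0 hp0
      have h0 : (p.2 - p0.2) ^ 2 ≤ 0 := by
        have : p.1 - p0.1 = 4 := by omega
        nlinarith
      have := sq_eq_zero_iff.1 (le_antisymm h0 (sq_nonneg _))
      exact Prod.ext c1 (by omega)
    right; right
    omega
  have coly : q1.2 - q0.2 = 4 → ∀ p ∈ T, p = q0 ∨ p = q1 ∨ (q0.2 + 1 ≤ p.2 ∧ p.2 ≤ q0.2 + 3) := by
    intro h4 p hp
    have e01 : q0.1 = q1.1 := by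
      have := h q1 hq1 q0 hq0
      have h0 : (q1.1 - q0.1) ^ 2 ≤ 0 := by nlinarith
      have := sq_eq_zero_iff.1 (le_antisymm h0 (sq_nonneg _))
      omega
    have hm := hq0m p hp
    have hM := hq1m p hp
    by_cases c0 : p.2 = q0.2
    · left
      have := h q1 hq1 p hp
      have h0 : (q1.1 - p.1) ^ 2 ≤ 0 := by
        have : q1.2 - p.2 = 4 := by omega
        nlinarith
      have := sq_eq_zero_iff.1 (le_antisymm h0 (sq_nonneg _))
      exact Prod.ext (by omega) c0
    by_cases c1 : p.2 = q1.2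
    · right; left
      have := h p hp q0 hq0
      have h0 : (p.1 - q0.1) ^ 2 ≤ 0 := by
        have : p.2 - q0.2 = 4 := by omega
        nlinarith
      have := sq_eq_zero_iff.1 (le_antisymm h0 (sq_nonneg _))
      exact Prod.ext (by omega) c1
    right; right
    omega
  have hcard : ∀ (a b c d : ℤ), (Icc a b ×ˢ Icc c d : Finset (ℤ × ℤ)).card =
      (b + 1 - a).toNat * (d + 1 - c).toNat := by
    intro a b c d
    rw [card_product, Int.card_Icc, Int.card_Icc]
  rcases lt_or_eq_of_le hx4 with hx | hx <;> rcases lt_or_eq_of_le hy4 with hy | hy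
  · -- both at most 3
    set m := p0.1 with hm
    set n := q0.2 with hn
    have hsub : ∀ p ∈ T, p ∈ (Icc m (m + 3) ×ˢ Icc n (n + 3) : Finset (ℤ × ℤ)) := by
      intro p hp
      have h1 := hp0m p hp
      have h2 := hp1m p hp
      have h3 := hq0m p hp
      have h4 := hq1m p hp
      simp only [mem_product, mem_Icc]
      omega
    obtain ⟨u, hu, huT⟩ : ∃ u : ℤ × ℤ, (u = (m, n) ∨ u = (m + 3, n + 3)) ∧ u ∉ T := by
      by_cases c : (m, n) ∈ T
      · refine ⟨(m + 3, n + 3), Or.inr rfl, fun c' => ?_⟩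
        have := h _ c' _ c
        simp only [add_sub_cancel_left] at this
        omega
      · exact ⟨_, Or.inl rfl, c⟩
    obtain ⟨v, hv, hvT⟩ : ∃ v : ℤ × ℤ, (v = (m + 3, n) ∨ v = (m, n + 3)) ∧ v ∉ T := by
      by_cases c : (m + 3, n) ∈ T
      · refine ⟨(m, n + 3), Or.inr rfl, fun c' => ?_⟩
        have := h _ c' _ c
        have e : (m - (m + 3)) ^ 2 + (n + 3 - n) ^ 2 = 18 := by ring
        simp only at this
        omega
      · exact ⟨_, Or.inl rfl, c⟩
    have huB : u ∈ (Icc m (m + 3) ×ˢ Icc n (n + 3) : Finset (ℤ × ℤ)) := by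
      rcases hu with rfl | rfl <;> simp
    have hvB : v ∈ (Icc m (m + 3) ×ˢ Icc n (n + 3) : Finset (ℤ × ℤ)) := by
      rcases hv with rfl | rfl <;> simp
    have huv : v ≠ u := by
      rcases hu with rfl | rfl <;> rcases hv with rfl | rfl <;> simp
    have hT2 : T ⊆ ((Icc m (m + 3) ×ˢ Icc n (n + 3) : Finset (ℤ × ℤ)).erase u).erase v := by
      intro p hp
      refine mem_erase.2 ⟨fun e => hvT (e ▸ hp), mem_erase.2 ⟨fun e => huT (e ▸ hp), hsub p hp⟩⟩
    refine (card_le_card hT2).trans ?_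
    rw [card_erase_of_mem (mem_erase.2 ⟨huv, hvB⟩), card_erase_of_mem huB, hcard]
    have e1 : (m + 3 + 1 - m).toNat = 4 := by omega
    have e2 : (n + 3 + 1 - n).toNat = 4 := by omega
    rw [e1, e2]
  · -- height 4, width at most 3
    have hsub : T ⊆ insert q0 (insert q1 (Icc p0.1 (p0.1 + 3) ×ˢ Icc (q0.2 + 1) (q0.2 + 3))) := by
      intro p hp
      have h1 := hp0m p hp
      have h2 := hp1m p hp
      rcases coly hy p hp with c | c | c
      · simp [c]
      · simp [c]
      · simp only [mem_insert, mem_product, mem_Icc]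
        right; right
        omega
    refine (card_le_card hsub).trans ((card_insert_le _ _).trans ?_)
    refine (Nat.add_le_add_right (card_insert_le _ _) 1).trans ?_
    rw [hcard]
    have e1 : (p0.1 + 3 + 1 - p0.1).toNat = 4 := by omega
    have e2 : (q0.2 + 3 + 1 - (q0.2 + 1)).toNat = 3 := by omega
    rw [e1, e2]
  · -- width 4, height at most 3
    have hsub : T ⊆ insert p0 (insert p1 (Icc (p0.1 + 1) (p0.1 + 3) ×ˢ Icc q0.2 (q0.2 + 3))) := by
      intro p hp
      have h1 := hq0m p hp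
      have h2 := hq1m p hp
      rcases colx hx p hp with c | c | c
      · simp [c]
      · simp [c]
      · simp only [mem_insert, mem_product, mem_Icc]
        right; right
        omega
    refine (card_le_card hsub).trans ((card_insert_le _ _).trans ?_)
    refine (Nat.add_le_add_right (card_insert_le _ _) 1).trans ?_
    rw [hcard]
    have e1 : (p0.1 + 3 + 1 - (p0.1 + 1)).toNat = 3 := by omega
    have e2 : (q0.2 + 3 + 1 - q0.2).toNat = 4 := by omega
    rw [e1, e2]
  · have hsub : T ⊆ insert p0 (insert p1 (insert q0 (insert q1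
        (Icc (p0.1 + 1) (p0.1 + 3) ×ˢ Icc (q0.2 + 1) (q0.2 + 3))))) := by
      intro p hp
      rcases colx hx p hp with c | c | c
      · simp [c]
      · simp [c]
      · rcases coly hy p hp with c' | c' | c'
        · simp [c']
        · simp [c']
        · simp only [mem_insert, mem_product, mem_Icc]
          right; right; right; right
          omega
    refine (card_le_card hsub).trans ?_
    have c1 := card_insert_le p0 (insert p1 (insert q0 (insert q1
        (Icc (p0.1 + 1) (p0.1 + 3) ×ˢ Icc (q0.2 + 1) (q0.2 + 3)))))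
    have c2 := card_insert_le p1 (insert q0 (insert q1
        (Icc (p0.1 + 1) (p0.1 + 3) ×ˢ Icc (q0.2 + 1) (q0.2 + 3))))
    have c3 := card_insert_le q0 (insert q1
        (Icc (p0.1 + 1) (p0.1 + 3) ×ˢ Icc (q0.2 + 1) (q0.2 + 3)))
    have c4 := card_insert_le q1 (Icc (p0.1 + 1) (p0.1 + 3) ×ˢ Icc (q0.2 + 1) (q0.2 + 3))
    have c5 := hcard (p0.1 + 1) (p0.1 + 3) (q0.2 + 1) (q0.2 + 3)
    have e1 : (p0.1 + 3 + 1 - (p0.1 + 1)).toNat = 3 := by omega
    have e2 : (q0.2 + 3 + 1 - (q0.2 + 1)).toNat = 3 := by omega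
    rw [e1, e2] at c5
    omega

section Inner

variable {ι E : Type*} [NormedAddCommGroup E] [InnerProductSpace ℝ E]

open scoped RealInnerProductSpace

/-- Blichfeldt's inequality for points at mutual distances at least `2` -/
theorem blich (A : Finset ι) (v : ι → E)
    (h : ∀ i ∈ A, ∀ j ∈ A, i ≠ j → 2 ≤ ‖v i - v j‖) :
    ‖∑ i ∈ A, v i‖ ^ 2 ≤ A.card * ∑ i ∈ A, ‖v i‖ ^ 2 - 2 * A.card * (A.card - 1) := by
  classical
  have h1 : ∑ i ∈ A, ∑ j ∈ A, ‖v i - v j‖ ^ 2 =
      2 * A.card * ∑ i ∈ A, ‖v i‖ ^ 2 - 2 * ‖∑ i ∈ A, v i‖ ^ 2 := by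
    have e1 : ∀ i ∈ A, ∑ j ∈ A, ‖v i - v j‖ ^ 2 =
        A.card * ‖v i‖ ^ 2 - 2 * ⟪v i, ∑ j ∈ A, v j⟫ + ∑ j ∈ A, ‖v j‖ ^ 2 := by
      intro i _
      rw [inner_sum, mul_sum, ← nsmul_eq_mul, ← sum_const, ← sum_sub_distrib, ← sum_add_distrib]
      exact sum_congr rfl fun j _ => norm_sub_sq_real _ _
    rw [sum_congr rfl e1, sum_add_distrib, sum_sub_distrib, ← mul_sum, ← mul_sum, ← sum_inner,
      real_inner_self_eq_norm_sq, sum_const, nsmul_eq_mul]
    ring
  have h2 : (4 : ℝ) * A.card * (A.card - 1) ≤ ∑ i ∈ A, ∑ j ∈ A, ‖v i - v j‖ ^ 2 := by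
    have e2 : ∀ i ∈ A, (4 : ℝ) * (A.card - 1) ≤ ∑ j ∈ A, ‖v i - v j‖ ^ 2 := by
      intro i hi
      rw [← add_sum_erase _ _ hi, sub_self, norm_zero]
      have hc : ((A.erase i).card : ℝ) = A.card - 1 := by
        rw [card_erase_of_mem hi, Nat.cast_sub (card_pos.2 ⟨i, hi⟩)]
        simp
      have e3 : ((A.erase i).card : ℝ) * 4 ≤ ∑ j ∈ A.erase i, ‖v i - v j‖ ^ 2 := by
        rw [← nsmul_eq_mul]
        refine card_nsmul_le_sum _ _ _ fun j hj => ?_
        have := h i hi j (mem_of_mem_erase hj) (ne_of_mem_erase hj).symm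
        nlinarith
      rw [hc] at e3
      linarith
    calc (4 : ℝ) * A.card * (A.card - 1) = ∑ _i ∈ A, (4 : ℝ) * (A.card - 1) := by
          rw [sum_const, nsmul_eq_mul]; ring
      _ ≤ _ := sum_le_sum e2
  linarith

/-- the weight function -/
noncomputable def g (t : ℝ) : ℝ :=
  if t < 3 / 5 then 1 else if t < 1 then (2 - t) ^ 2 / 2 else if t ≤ 7 / 5 then 1 - t ^ 2 / 2 else 0

theorem g_nonneg (t : ℝ) : 0 ≤ g t := by
  unfold g
  split_ifs with h1 h2 h3
  · exact zero_le_one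
  · positivity
  · push Not at h1 h2
    nlinarith
  · exact le_rfl

theorem g_le_one (t : ℝ) : g t ≤ 1 := by
  unfold g
  split_ifs with h1 h2 h3
  · exact le_rfl
  · push Not at h1
    nlinarith
  · nlinarith [sq_nonneg t]
  · exact zero_le_one

theorem g_zero {t : ℝ} (h : 7 / 5 < t) : g t = 0 := by
  unfold g
  rw [if_neg (by linarith), if_neg (by linarith), if_neg (by linarith)]

/-- for points at mutual distances at least `2`, the weights add up to at most `1` -/
theorem sum_g_le (F : Finset ι) (v : ι → E)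
    (h : ∀ i ∈ F, ∀ j ∈ F, i ≠ j → 2 ≤ ‖v i - v j‖) : ∑ i ∈ F, g ‖v i‖ ≤ 1 := by
  classical
  -- restrict to the points of norm at most 7/5
  have hA : ∑ i ∈ F, g ‖v i‖ = ∑ i ∈ F with ‖v i‖ ≤ 7 / 5, g ‖v i‖ := by
    rw [sum_filter]
    refine sum_congr rfl fun i _ => ?_
    split_ifs with hc
    · rfl
    · exact g_zero (not_le.1 hc)
  rw [hA]
  set A := F.filter (fun i => ‖v i‖ ≤ 7 / 5) with hAdef
  have hsep : ∀ i ∈ A, ∀ j ∈ A, i ≠ j → 2 ≤ ‖v i - v j‖ := fun i hi j hj =>
    h i (mem_of_mem_filter _ hi) j (mem_of_mem_filter _ hj)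
  have hA7 : ∀ i ∈ A, ‖v i‖ ≤ 7 / 5 := fun i hi => (mem_filter.1 hi).2
  by_cases hall : ∀ i ∈ A, 1 ≤ ‖v i‖
  · have hg : ∀ i ∈ A, g ‖v i‖ = 1 - ‖v i‖ ^ 2 / 2 := by
      intro i hi
      unfold g
      have := hall i hi
      rw [if_neg (by linarith), if_neg (by linarith), if_pos (hA7 i hi)]
    rw [sum_congr rfl hg, sum_sub_distrib, sum_const, nsmul_eq_mul, ← sum_div]
    rcases A.eq_empty_or_nonempty with he | hne
    · simp [he]
    · have hb := blich A v hsep
      have hpos : (0 : ℝ) < A.card := by exact_mod_cast card_pos.2 hne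
      have h0 : 0 ≤ (A.card : ℝ) * (∑ i ∈ A, ‖v i‖ ^ 2 - 2 * (A.card - 1)) := by
        nlinarith [sq_nonneg ‖∑ i ∈ A, v i‖]
      have := nonneg_of_mul_nonneg_right h0 hpos
      linarith
  · push Not at hall
    obtain ⟨k, hk, hk1⟩ := hall
    set t := ‖v k‖ with ht
    have ht0 : 0 ≤ t := norm_nonneg _
    have hoth : ∀ i ∈ A.erase k, 2 - t ≤ ‖v i‖ := by
      intro i hi
      have h2 := hsep i (mem_of_mem_erase hi) k hk (ne_of_mem_erase hi)
      have := norm_sub_le (v i) (v k)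
      linarith
    rw [← add_sum_erase _ _ hk]
    by_cases ht35 : t < 3 / 5
    · have he : A.erase k = ∅ := by
        rw [eq_empty_iff_forall_notMem]
        intro i hi
        have := hoth i hi
        have := hA7 i (mem_of_mem_erase hi)
        linarith
      rw [he, sum_empty, add_zero]
      exact g_le_one _
    push Not at ht35
    have hgk : g t = (2 - t) ^ 2 / 2 := by
      unfold g
      rw [if_neg (by linarith), if_pos hk1]
    set B := A.erase k with hB
    have hg : ∀ i ∈ B, g ‖v i‖ = 1 - ‖v i‖ ^ 2 / 2 := by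
      intro i hi
      unfold g
      have := hoth i hi
      rw [if_neg (by linarith), if_neg (by linarith), if_pos (hA7 i (mem_of_mem_erase hi))]
    rw [hgk, sum_congr rfl hg, sum_sub_distrib, sum_const, nsmul_eq_mul, ← sum_div]
    rcases B.eq_empty_or_nonempty with he | hne
    · rw [he]
      simp only [card_empty, Nat.cast_zero, zero_mul, sum_empty, zero_div, sub_zero, add_zero]
      nlinarith
    have hb := blich B v (fun i hi j hj => hsep i (mem_of_mem_erase hi) j (mem_of_mem_erase hj))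
    have hc1 : (1 : ℝ) ≤ B.card := by exact_mod_cast card_pos.2 hne
    set m : ℝ := (B.card : ℝ) with hm
    set Q : ℝ := ∑ i ∈ B, ‖v i‖ ^ 2 with hQ
    set P : E := ∑ i ∈ B, v i with hP
    -- distances to v k
    have hd : 4 * m ≤ Q + m * t ^ 2 - 2 * ⟪v k, P⟫ := by
      have e1 : ∑ i ∈ B, ‖v k - v i‖ ^ 2 = Q + m * t ^ 2 - 2 * ⟪v k, P⟫ := by
        have e2 : ∀ i ∈ B, ‖v k - v i‖ ^ 2 = t ^ 2 - 2 * ⟪v k, v i⟫ + ‖v i‖ ^ 2 := by
          intro i _
          rw [norm_sub_sq_real]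
        rw [sum_congr rfl e2, sum_add_distrib, sum_sub_distrib, sum_const, nsmul_eq_mul,
          ← mul_sum, ← inner_sum]
        ring
      rw [← e1, hm, mul_comm, ← nsmul_eq_mul]
      refine card_nsmul_le_sum _ _ _ fun i hi => ?_
      have := hsep k hk i (mem_of_mem_erase hi) (ne_of_mem_erase hi).symm
      nlinarith
    have hin : -(t * ‖P‖) ≤ ⟪v k, P⟫ := by
      have := abs_real_inner_le_norm (v k) P
      exact (abs_le.1 this).1
    set ρ := ‖P‖ with hρ
    have hρ0 : 0 ≤ ρ := norm_nonneg _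
    obtain ⟨w, hw0, hw⟩ : ∃ w : ℝ, 1 ≤ w ∧ w ^ 2 = m :=
      ⟨√m, by rw [Real.one_le_sqrt]; exact hc1, Real.sq_sqrt (by linarith)⟩
    -- R = Q - 2 (m - 1)
    by_contra hcon
    push Not at hcon
    have hR : Q - 2 * (m - 1) < (2 - t) ^ 2 := by nlinarith
    have hρ2 : ρ ^ 2 < (w * (2 - t)) ^ 2 := by
      have : ρ ^ 2 ≤ m * (Q - 2 * (m - 1)) := by nlinarith
      have h3 : m * (Q - 2 * (m - 1)) < m * (2 - t) ^ 2 :=
        mul_lt_mul_of_pos_left hR (by linarith)
      rw [mul_pow, hw]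
      linarith
    have hρ3 : ρ < w * (2 - t) := lt_of_pow_lt_pow_left₀ 2 (by nlinarith) hρ2
    have h5 : t * ρ ≤ t * (w * (2 - t)) := mul_le_mul_of_nonneg_left hρ3.le ht0
    have h6 : 0 ≤ (w - 1) * (2 * (w + 1) - 4 * t - (w - 1) * t ^ 2) := by
      refine mul_nonneg (by linarith) ?_
      have : (w - 1) * t ^ 2 ≤ (w - 1) * 1 :=
        mul_le_mul_of_nonneg_left (by nlinarith) (by linarith)
      nlinarith
    nlinarith

end Inner

end Pool.Agent.X137.Cov
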