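import Pool.Agent.X137.Cov.Basic

/-! Coverable spacings of the square lattice: the density bound (MP_bcdb6f_co). -/

open MeasureTheory Metric Set

namespace Pool.Agent.X137.Cov

/-- the Euclidean plane -/
abbrev Plane := EuclideanSpace ℝ (Fin 2)

theorem g_measurable : Measurable g := by
  unfold g
  exact Measurable.ite measurableSet_Iio measurable_const
    (Measurable.ite measurableSet_Iio (by fun_prop)
      (Measurable.ite measurableSet_Iic (by fun_prop) measurable_const))

theorem ii_congr {a b : ℝ} (hab : a ≤ b) {f h : ℝ → ℝ} (H : ∀ x ∈ Ioo a b, f x = h x) :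
    ∫ x in a..b, f x = ∫ x in a..b, h x := by
  rw [intervalIntegral.integral_of_le hab, intervalIntegral.integral_of_le hab,
    integral_Ioc_eq_integral_Ioo, integral_Ioc_eq_integral_Ioo]
  exact setIntegral_congr_fun measurableSet_Ioo H

theorem ii_fg {a b : ℝ} (ha : 0 ≤ a) (hb : 0 ≤ b) : IntervalIntegrable (fun y : ℝ => y * g y) volume a b := by
  rw [intervalIntegrable_iff]
  refine Measure.integrableOn_of_bounded (M := 7 / 5) ?_ ?_ ?_
  · exact ne_of_lt (by simp [Set.uIoc, Real.volume_Ioc])
  · exact (measurable_id.mul g_measurable).aestronglyMeasurable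
  · refine (ae_restrict_mem measurableSet_uIoc).mono fun y hy => ?_
    have hy0 : 0 < y := lt_of_le_of_lt (le_min ha hb) hy.1
    rw [Real.norm_eq_abs, abs_of_nonneg (mul_nonneg hy0.le (g_nonneg y))]
    by_cases h : 7 / 5 < y
    · rw [g_zero h, mul_zero]; norm_num
    · push Not at h
      calc y * g y ≤ y * 1 := mul_le_mul_of_nonneg_left (g_le_one y) hy0.le
        _ ≤ 7 / 5 := by linarith

theorem radial : ∫ y in Ioi (0 : ℝ), y * g y = 1991 / 3750 := by
  have h1 : ∫ y in Ioi (0 : ℝ), y * g y = ∫ y in Ioc (0 : ℝ) (7 / 5), y * g y := by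
    refine setIntegral_eq_of_subset_of_forall_sdiff_eq_zero measurableSet_Ioi
      Ioc_subset_Ioi_self ?_
    rintro y ⟨hy1, hy2⟩
    have : 7 / 5 < y := by
      by_contra hc
      exact hy2 ⟨hy1, not_lt.1 hc⟩
    rw [g_zero this, mul_zero]
  rw [h1, ← intervalIntegral.integral_of_le (by norm_num),
    ← intervalIntegral.integral_add_adjacent_intervals (ii_fg (a := 0) (b := 3 / 5)
      (by norm_num) (by norm_num)) (ii_fg (a := 3 / 5) (b := 7 / 5) (by norm_num) (by norm_num)),
    ← intervalIntegral.integral_add_adjacent_intervals (ii_fg (a := 3 / 5) (b := 1)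
      (by norm_num) (by norm_num)) (ii_fg (a := 1) (b := 7 / 5) (by norm_num) (by norm_num))]
  have e1 : ∫ y in (0 : ℝ)..(3 / 5), y * g y = 9 / 50 := by
    rw [ii_congr (h := fun y => y) (by norm_num)]
    · rw [integral_id]; norm_num
    · rintro y ⟨h1, h2⟩
      unfold g
      rw [if_pos h2, mul_one]
  have e2 : ∫ y in (3 / 5 : ℝ)..1, y * g y = 424 / 1875 := by
    rw [ii_congr (h := fun y => y * ((2 - y) ^ 2 / 2)) (by norm_num)]
    · rw [intervalIntegral.integral_eq_sub_of_hasDerivAt
        (f := fun x : ℝ => x ^ 2 - 2 / 3 * x ^ 3 + x ^ 4 / 8)]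
      · norm_num
      · intro x _
        have := ((hasDerivAt_pow 2 x).fun_sub ((hasDerivAt_pow 3 x).const_mul (2 / 3))).fun_add
          ((hasDerivAt_pow 4 x).div_const 8)
        refine this.congr_deriv ?_
        norm_num
        ring
      · exact Continuous.intervalIntegrable (by fun_prop) _ _
    · rintro y ⟨h1, h2⟩
      unfold g
      rw [if_neg (by linarith), if_pos h2]
  have e3 : ∫ y in (1 : ℝ)..(7 / 5), y * g y = 78 / 625 := by
    rw [ii_congr (h := fun y => y * (1 - y ^ 2 / 2)) (by norm_num)]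
    · rw [intervalIntegral.integral_eq_sub_of_hasDerivAt
        (f := fun x : ℝ => x ^ 2 / 2 - x ^ 4 / 8)]
      · norm_num
      · intro x _
        have := ((hasDerivAt_pow 2 x).div_const 2).fun_sub ((hasDerivAt_pow 4 x).div_const 8)
        refine this.congr_deriv ?_
        norm_num
        ring
      · exact Continuous.intervalIntegrable (by fun_prop) _ _
    · rintro y ⟨h1, h2⟩
      unfold g
      rw [if_neg (by linarith), if_neg (by linarith), if_pos h2.le]
  rw [e1, e2, e3]
  norm_num

theorem integral_g : ∫ x : Plane, g ‖x‖ = 2 * Real.pi * (1991 / 3750) := by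
  rw [integral_fun_norm_addHaar (volume : Measure Plane) g]
  have h2 : Module.finrank ℝ Plane = 2 := by simp
  have h3 : (volume : Measure Plane).real (ball 0 1) = Real.pi := by
    rw [Measure.real, EuclideanSpace.volume_ball_fin_two]
    simp [Real.pi_pos.le]
  rw [h2, h3]
  have : ∫ y in Ioi (0 : ℝ), y ^ (2 - 1) • g y = ∫ y in Ioi (0 : ℝ), y * g y := by
    simp
  rw [this, radial]
  simp
  ring

theorem integrable_g (c : Plane) : Integrable (fun x : Plane => g ‖x - c‖) := by
  have h0 : Integrable (fun x : Plane => g ‖x‖) := by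
    refine (integrableOn_iff_integrable_of_support_subset (s := closedBall (0 : Plane) (7 / 5)) ?_).1 ?_
    · intro x hx
      rw [Function.mem_support] at hx
      rw [mem_closedBall_zero_iff]
      by_contra hc
      exact hx (g_zero (not_le.1 hc))
    · refine Measure.integrableOn_of_bounded (M := 1) measure_closedBall_lt_top.ne ?_ ?_
      · exact (g_measurable.comp measurable_norm).aestronglyMeasurable
      · refine Filter.Eventually.of_forall fun x => ?_
        rw [Real.norm_eq_abs, abs_of_nonneg (g_nonneg _)]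
        exact g_le_one _
  exact h0.comp_sub_right c

theorem volume_cube (a b : ℝ) (hab : a ≤ b) :
    volume {x : Plane | ∀ i, a ≤ x i ∧ x i ≤ b} = ENNReal.ofReal ((b - a) ^ 2) ∧
    MeasurableSet {x : Plane | ∀ i, a ≤ x i ∧ x i ≤ b} := by
  have hS : MeasurableSet (Set.pi Set.univ (fun _ : Fin 2 => Set.Icc a b)) :=
    MeasurableSet.univ_pi (fun _ => measurableSet_Icc)
  have he : {x : Plane | ∀ i, a ≤ x i ∧ x i ≤ b} =
      (@WithLp.ofLp 2 (Fin 2 → ℝ)) ⁻¹' (Set.pi Set.univ (fun _ : Fin 2 => Set.Icc a b)) := by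
    ext x
    simp only [Set.mem_ofPred_eq, Set.mem_preimage, Set.mem_pi, Set.mem_univ, true_imp_iff,
      Set.mem_Icc]
  have hp := PiLp.volume_preserving_ofLp (Fin 2)
  rw [he]
  constructor
  · rw [hp.measure_preimage hS.nullMeasurableSet, volume_pi_pi]
    simp only [Real.volume_Icc, Finset.prod_const, Finset.card_univ, Fintype.card_fin]
    rw [ENNReal.ofReal_pow (sub_nonneg.2 hab)]
  · exact hp.measurable hS

theorem abs_coord_le (x : Plane) (i : Fin 2) : |x i| ≤ ‖x‖ := by
  have := PiLp.norm_apply_le x i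
  simpa using this

/-- the number of points at mutual distances at least `2` in a square -/
theorem card_bound (F : Finset Plane) (K : ℝ) (hK : 0 ≤ K)
    (hF : ∀ c ∈ F, ∀ i, -1 ≤ c i ∧ c i ≤ K + 1)
    (h : ∀ c ∈ F, ∀ c' ∈ F, c ≠ c' → 2 ≤ ‖c - c'‖) :
    F.card * (2 * Real.pi * (1991 / 3750)) ≤ (K + 6) ^ 2 := by
  obtain ⟨hv, hm⟩ := volume_cube (-3) (K + 3) (by linarith)
  set Bx : Set Plane := {x : Plane | ∀ i, -3 ≤ x i ∧ x i ≤ K + 3} with hBx
  have h1 : ∫ x : Plane, ∑ c ∈ F, g ‖x - c‖ = F.card * (2 * Real.pi * (1991 / 3750)) := by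
    rw [integral_finsetSum _ fun c _ => integrable_g c]
    rw [Finset.sum_congr rfl fun c _ => (integral_sub_right_eq_self (fun x : Plane => g ‖x‖) c).trans
      integral_g, Finset.sum_const, nsmul_eq_mul]
  rw [← h1]
  have h2 : ∫ x : Plane, Bx.indicator (fun _ => (1 : ℝ)) x = (K + 6) ^ 2 := by
    rw [integral_indicator hm, setIntegral_const, Measure.real, hv]
    rw [ENNReal.toReal_ofReal (by positivity)]
    simp
    ring
  rw [← h2]
  refine integral_mono (integrable_finsetSum _ fun c _ => integrable_g c) ?_ ?_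
  · refine (integrable_indicator_iff hm).2 ?_
    refine integrableOn_const ?_
    rw [hv]
    exact ENNReal.ofReal_ne_top
  · intro x
    by_cases hx : x ∈ Bx
    · rw [indicator_of_mem hx]
      refine sum_g_le F (fun c => x - c) ?_
      intro c hc c' hc' hne
      rw [sub_sub_sub_cancel_left]
      exact h c' hc' c hc (Ne.symm hne)
    · rw [indicator_of_notMem hx]
      refine le_of_eq (Finset.sum_eq_zero fun c hc => ?_)
      refine g_zero ?_
      by_contra hcon
      push Not at hcon
      refine hx fun i => ?_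
      have h3 := (abs_coord_le (x - c) i).trans hcon
      have h4 := hF c hc i
      rw [PiLp.sub_apply, abs_le] at h3
      constructor <;> linarith

end Pool.Agent.X137.Cov
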